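import Pool.Agent.Run7.h744.DD.Iface
import Pool.Agent.W503.TQ.Base
import Pool.Agent.W790.TQ.Est2

/-! Project DD (helper744), piece DIF: the difference of a strong solution and of a smooth curve. -/

set_option autoImplicit false

open MeasureTheory Set Filter Topology
open scoped InnerProductSpace ContDiff

namespace Run7.h617.DD

open H772R2.NSR (Frame prim_cont ii_of_cont)
open H772R2.NSG (mem_cont int_inner ii_of_int St)
open Pool.Agent.W795.TQ (Str Univ FH)
open Run7.h744.DD

/-- the integral of the inner product with a constant -/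
theorem inner_ii {Y : Type} [NormedAddCommGroup Y] [InnerProductSpace ℝ Y] [CompleteSpace Y]
    {f : ℝ → Y} {a b : ℝ} (hab : a ≤ b) (hf : IntervalIntegrable f volume a b) (c : Y) :
    ⟪∫ s in a..b, f s, c⟫_ℝ = ∫ s in a..b, ⟪f s, c⟫_ℝ := by
  rw [intervalIntegral.integral_of_le hab, intervalIntegral.integral_of_le hab]
  have hi : Integrable f (volume.restrict (Ioc a b)) :=
    (intervalIntegrable_iff_integrableOn_Ioc_of_le hab).1 hf
  have := integral_inner (𝕜 := ℝ) hi c
  rw [real_inner_comm, ← this]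
  exact integral_congr_ae (Eventually.of_forall fun s => real_inner_comm _ _)

/-- two interval integrals agree if the functions agree almost everywhere on `(0, T]` -/
theorem ii_congr {Y : Type} [NormedAddCommGroup Y] [NormedSpace ℝ Y] {T : ℝ} {f g : ℝ → Y}
    (h : ∀ᵐ s ∂(volume.restrict (Ioc 0 T)), f s = g s) {a b : ℝ} (ha : 0 ≤ a) (hab : a ≤ b)
    (hb : b ≤ T) : ∫ s in a..b, f s = ∫ s in a..b, g s := by
  rw [intervalIntegral.integral_of_le hab, intervalIntegral.integral_of_le hab]
  exact integral_congr_ae (ae_mono (Measure.restrict_mono (Ioc_subset_Ioc ha hb) le_rfl) h)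

theorem t_DIF : S_DIF := by
  intro H K _ _ _ _ _ _ W m C ν lam Q J L L1 E E1 g g1 y y1 Fr hJ hν B G τ u u1 z z1 hτ S h0
  have hgc : Continuous g := continuous_iff_continuousAt.2 fun t => (G.dg t).continuousAt
  have hyc : Continuous y := continuous_iff_continuousAt.2 fun t => (G.dy t).continuousAt
  have hLc : Continuous L := continuous_iff_continuousAt.2 fun t => (B.dL t).continuousAt
  have hEc : Continuous E := continuous_iff_continuousAt.2 fun t => (B.dE t).continuousAt
  have huc : ContinuousOn u (Icc 0 τ) := prim_cont S.u1m S.pu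
  have hzc : ContinuousOn z (Icc 0 τ) := prim_cont S.z1m S.pz
  have hvc : ContinuousOn (fun t => u t - g t) (Icc 0 τ) := huc.sub hgc.continuousOn
  have hwc : ContinuousOn (fun t => z t - y t) (Icc 0 τ) := hzc.sub hyc.continuousOn
  have hFc : ContinuousOn (fun t => L t (u t - g t) + J (E t)) (Icc 0 τ) :=
    (hLc.continuousOn.clm_apply hvc).add (J.continuous.comp hEc).continuousOn
  obtain ⟨Z, hSt⟩ := Pool.Agent.W503.TQ.toSt (F := fun _ => (0 : K)) continuousOn_const S
  have hdw := hSt.deriv_weak Fr hτ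
  have hmem : ∀ t ∈ Icc 0 τ, (u t - g t, z t - y t) ∈ W := fun t ht =>
    W.sub_mem (S.mem t ht) (G.mem t)
  have hm1 : ∀ᵐ s ∂(volume.restrict (Ioc 0 τ)), ∀ p ∈ W,
      ⟪u1 s - g1 s, p.1⟫_ℝ = ⟪(L s (u s - g s) + J (E s)) - ν • (z s - y s) + m (u s - g s), p.2⟫_ℝ := by
    filter_upwards [hdw, ae_restrict_mem measurableSet_Ioc] with s hs hsm p hp
    have hsI : s ∈ Icc 0 τ := Ioc_subset_Icc_self hsm
    have e1 := hs p hp
    have e2 := G.res s p hp
    have e3 := G.bil s _ (hmem s hsI)
    have e4 := hJ.rep (E s) p hp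
    simp only [add_sub_cancel] at e3
    rw [e3] at e1
    simp only [inner_sub_left, inner_add_left, inner_neg_left, real_inner_smul_left, inner_zero_left,
      smul_sub] at e1 e2 ⊢
    rw [e1, e2, e4]
    ring
  have hu1 : MemLp (fun t => u1 t - g1 t) 2 (volume.restrict (Ioc 0 τ)) :=
    S.u1m.sub (mem_cont G.cg.continuousOn)
  have hz1 : MemLp (fun t => z1 t - y1 t) 2 (volume.restrict (Ioc 0 τ)) :=
    S.z1m.sub (mem_cont G.cy.continuousOn)
  have hpu : ∀ a b, 0 ≤ a → a ≤ b → b ≤ τ →
      (u b - g b) - (u a - g a) = ∫ s in a..b, (u1 s - g1 s) := by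
    intro a b ha hab hb
    rw [intervalIntegral.integral_sub (ii_of_int (S.u1m.integrable (by norm_num)) ha hab hb)
      (G.cg.intervalIntegrable a b), ← S.pu a b ha hab hb,
      intervalIntegral.integral_eq_sub_of_hasDerivAt (fun t _ => G.dg t)
        (G.cg.intervalIntegrable a b)]
    abel
  have hpz : ∀ a b, 0 ≤ a → a ≤ b → b ≤ τ →
      (z b - y b) - (z a - y a) = ∫ s in a..b, (z1 s - y1 s) := by
    intro a b ha hab hb
    rw [intervalIntegral.integral_sub (ii_of_int (S.z1m.integrable (by norm_num)) ha hab hb)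
      (G.cy.intervalIntegrable a b), ← S.pz a b ha hab hb,
      intervalIntegral.integral_eq_sub_of_hasDerivAt (fun t _ => G.dy t)
        (G.cy.intervalIntegrable a b)]
    abel
  refine ⟨hmem, ?_, ?_, hu1, hz1, hpu, hpz, ?_, ?_⟩
  · filter_upwards [S.mem1] with s hs
    exact W.sub_mem hs (G.mem1 s)
  · obtain ⟨c, hc⟩ := S.bd
    obtain ⟨c', hc'⟩ := (isCompact_Icc.image_of_continuousOn
      (G.cg.continuousOn (s := Icc 0 τ))).isBounded.exists_norm_le
    refine ⟨c + c', ?_⟩
    filter_upwards [hc, ae_restrict_mem measurableSet_Ioc] with s hs hsm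
    exact (norm_sub_le _ _).trans (add_le_add hs (hc' _ ⟨s, Ioc_subset_Icc_self hsm, rfl⟩))
  · intro p hp t ht
    rw [hpu 0 t le_rfl ht.1 ht.2, inner_ii ht.1 (ii_of_int (hu1.integrable (by norm_num)) le_rfl
      ht.1 ht.2)]
    refine ii_congr (T := τ) ?_ le_rfl ht.1 ht.2
    filter_upwards [hm1] with s hs
    exact hs p hp
  · intro t ht
    have e1 := Pool.Agent.W790.TQ.sq_prim hu1 hpu le_rfl ht.1 ht.2
    have e2 : ∫ s in (0 : ℝ)..t, 2 * ⟪u1 s - g1 s, u s - g s⟫_ℝ =
        ∫ s in (0 : ℝ)..t, 2 * (⟪L s (u s - g s) + J (E s), z s - y s⟫_ℝ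
          - ν * ‖z s - y s‖ ^ 2) := by
      refine ii_congr (T := τ) ?_ le_rfl ht.1 ht.2
      filter_upwards [hm1, ae_restrict_mem measurableSet_Ioc] with s hs hsm
      have hsI : s ∈ Icc 0 τ := Ioc_subset_Icc_self hsm
      have e3 := hs _ (hmem s hsI)
      have e4 := Fr.ortho _ (hmem s hsI)
      simp only at e3 e4
      rw [e3, inner_add_left, e4, inner_sub_left, real_inner_smul_left, real_inner_self_eq_norm_sq]
      ring
    have i1 : IntervalIntegrable (fun s => ⟪L s (u s - g s) + J (E s), z s - y s⟫_ℝ) volume 0 t :=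
      ii_of_cont (T := τ) (hFc.inner hwc) le_rfl ht.1 ht.2
    have i2 : IntervalIntegrable (fun s => ν * ‖z s - y s‖ ^ 2) volume 0 t :=
      ii_of_cont (T := τ) (continuousOn_const.mul (hwc.norm.pow 2)) le_rfl ht.1 ht.2
    rw [e2, intervalIntegral.integral_const_mul, intervalIntegral.integral_sub i1 i2,
      intervalIntegral.integral_const_mul] at e1
    linarith

end Run7.h617.DD
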