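import Pool.Agent.Run7.h617.DD.DIF
import Pool.Agent.W503.TQ.Uni

/-! Project DD (helper744), piece GLU: uniqueness and gluing to a global strong solution. -/

set_option autoImplicit false
set_option linter.unusedSectionVars false

open MeasureTheory Set Filter Topology
open scoped InnerProductSpace ContDiff

namespace Run7.h617.DD

open H772R2.NSR (Frame prim_cont ii_of_cont ae_deriv_of_prim memLp_ii)
open H772R2.NSG (mem_cont int_inner ii_of_int St LH)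
open Pool.Agent.W795.TQ (Str Univ FH)
open Run7.h744.DD

section

variable {H K : Type} [NormedAddCommGroup H] [InnerProductSpace ℝ H]
    [CompleteSpace H] [NormedAddCommGroup K] [InnerProductSpace ℝ K] [CompleteSpace K]
    {W : Submodule ℝ (H × K)} {m : H → K} {C ν : ℝ}

/-- restriction of a strong solution to a shorter interval -/
theorem str_mono {T T' : ℝ} {F : ℝ → K} {u u1 : ℝ → H} {z z1 : ℝ → K} (h : T' ≤ T)
    (S : Str W m ν T F u u1 z z1) : Str W m ν T' F u u1 z z1 := by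
  have hsub : (volume.restrict (Ioc 0 T') : Measure ℝ) ≤ volume.restrict (Ioc 0 T) :=
    Measure.restrict_mono (Ioc_subset_Ioc_right h) le_rfl
  have hI : Icc 0 T' ⊆ Icc 0 T := Icc_subset_Icc_right h
  obtain ⟨c, hc⟩ := S.bd
  exact ⟨fun t ht => S.mem t (hI ht), ae_mono hsub S.mem1, ⟨c, ae_mono hsub hc⟩,
    S.u1m.mono_measure hsub, S.z1m.mono_measure hsub, fun a b ha hab hb => S.pu a b ha hab (hb.trans h),
    fun a b ha hab hb => S.pz a b ha hab (hb.trans h), fun p hp t ht => S.weak p hp t (hI ht),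
    fun t ht => S.energy t (hI ht)⟩

/-- uniqueness of strong solutions -/
theorem str_uniq (Fr : Frame W m C) (hν : 0 < ν) {T : ℝ} (hT : 0 < T) {u u1 v v1 : ℝ → H}
    {z z1 w w1 : ℝ → K} (S : Str W m ν T (fun _ => 0) u u1 z z1)
    (S' : Str W m ν T (fun _ => 0) v v1 w w1) (h0 : u 0 = v 0) :
    (∀ t ∈ Icc 0 T, u t = v t) ∧ (∀ t ∈ Icc 0 T, z t = w t) ∧
      (∀ᵐ s ∂(volume.restrict (Ioc 0 T)), u1 s = v1 s) ∧
      ∀ᵐ s ∂(volume.restrict (Ioc 0 T)), z1 s = w1 s := by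
  obtain ⟨Z, hSt⟩ := Pool.Agent.W503.TQ.toSt (F := fun _ => (0 : K)) continuousOn_const S
  have hmc : ContinuousOn (fun s => m (u s)) (Icc 0 T) := hSt.mc Fr
  have hzc : ContinuousOn z (Icc 0 T) := hSt.zc
  have hL : LH W m T (fun _ => ν) (fun _ => (0 : K)) (u 0) u z := by
    refine ⟨rfl, (mem_cont (p := 2) hSt.uc).aestronglyMeasurable,
      (mem_cont (p := 2) hmc).aestronglyMeasurable, ?_, mem_cont hzc, ?_, S.weak, ?_⟩
    · filter_upwards [ae_restrict_mem measurableSet_Ioc] with s hs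
      exact S.mem s (Ioc_subset_Icc_self hs)
    · exact (mem_cont (p := 1) (continuousOn_const.mul (hzc.norm.pow 2))).integrable le_rfl
    · intro t ht
      rw [intervalIntegral.integral_const_mul]
      exact (S.energy t ht).le
  have key := Pool.Agent.W503.TQ.proof_uni H K W m C ν T T (fun _ => 0) (u 0) u v v1 z w w1 Fr hν hT
    le_rfl continuousOn_const hL S' h0.symm
  have hu : ∀ t ∈ Icc 0 T, u t = v t := key.1
  have hz : ∀ t ∈ Icc 0 T, z t = w t := by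
    intro t ht
    have h1 : (u t - v t, z t - w t) ∈ W := W.sub_mem (S.mem t ht) (S'.mem t ht)
    have h2 := Fr.uniq _ h1 (by simp [hu t ht])
    exact sub_eq_zero.1 h2
  have hne : ∀ᵐ s ∂(volume.restrict (Ioc 0 T)), s ≠ T := by
    refine ae_restrict_of_ae ?_
    simp [ae_iff, measure_singleton]
  refine ⟨hu, hz, ?_, ?_⟩
  · filter_upwards [ae_deriv_of_prim hT (memLp_ii hT.le S.u1m) S.pu,
      ae_deriv_of_prim hT (memLp_ii hT.le S'.u1m) S'.pu,
      ae_restrict_mem measurableSet_Ioc, hne] with s h1 h2 hs hsT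
    refine h1.unique (h2.congr_of_eventuallyEq ?_)
    filter_upwards [Icc_mem_nhds hs.1 (lt_of_le_of_ne hs.2 hsT)] with t ht
    exact hu t ht
  · filter_upwards [ae_deriv_of_prim hT (memLp_ii hT.le S.z1m) S.pz,
      ae_deriv_of_prim hT (memLp_ii hT.le S'.z1m) S'.pz,
      ae_restrict_mem measurableSet_Ioc, hne] with s h1 h2 hs hsT
    refine h1.unique (h2.congr_of_eventuallyEq ?_)
    filter_upwards [Icc_mem_nhds hs.1 (lt_of_le_of_ne hs.2 hsT)] with t ht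
    exact hz t ht

/-- strong solutions and functions which agree almost everywhere -/
theorem str_congr {T : ℝ} {F : ℝ → K} {u u1 v v1 : ℝ → H} {z z1 w w1 : ℝ → K}
    (S : Str W m ν T F u u1 z z1) (hT : 0 ≤ T) (hu : ∀ t ∈ Icc 0 T, v t = u t)
    (hz : ∀ t ∈ Icc 0 T, w t = z t) (hu1 : ∀ᵐ s ∂(volume.restrict (Ioc 0 T)), v1 s = u1 s)
    (hz1 : ∀ᵐ s ∂(volume.restrict (Ioc 0 T)), w1 s = z1 s) : Str W m ν T F v v1 w w1 := by
  have h0 : (0 : ℝ) ∈ Icc 0 T := ⟨le_rfl, hT⟩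
  obtain ⟨c, hc⟩ := S.bd
  refine ⟨fun t ht => ?_, ?_, ⟨c, ?_⟩, ?_, ?_, ?_, ?_, ?_, ?_⟩
  · rw [hu t ht, hz t ht]; exact S.mem t ht
  · filter_upwards [S.mem1, hu1, hz1] with s h1 h2 h3
    rw [h2, h3]; exact h1
  · filter_upwards [hc, hu1] with s h1 h2
    rw [h2]; exact h1
  · exact S.u1m.ae_eq (by filter_upwards [hu1] with s hs using hs.symm)
  · exact S.z1m.ae_eq (by filter_upwards [hz1] with s hs using hs.symm)
  · intro a b ha hab hb
    rw [hu b ⟨ha.trans hab, hb⟩, hu a ⟨ha, hab.trans hb⟩, S.pu a b ha hab hb,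
      ii_congr hu1 ha hab hb]
  · intro a b ha hab hb
    rw [hz b ⟨ha.trans hab, hb⟩, hz a ⟨ha, hab.trans hb⟩, S.pz a b ha hab hb,
      ii_congr hz1 ha hab hb]
  · intro p hp t ht
    rw [hu t ht, hu 0 h0, S.weak p hp t ht]
    refine intervalIntegral.integral_congr fun s hs => ?_
    rw [uIcc_of_le ht.1] at hs
    rw [hu s ⟨hs.1, hs.2.trans ht.2⟩, hz s ⟨hs.1, hs.2.trans ht.2⟩]
  · intro t ht
    have e1 : ∫ s in (0 : ℝ)..t, ‖w s‖ ^ 2 = ∫ s in (0 : ℝ)..t, ‖z s‖ ^ 2 := by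
      refine intervalIntegral.integral_congr fun s hs => ?_
      rw [uIcc_of_le ht.1] at hs
      rw [hz s ⟨hs.1, hs.2.trans ht.2⟩]
    have e2 : ∫ s in (0 : ℝ)..t, ⟪F s, w s⟫_ℝ = ∫ s in (0 : ℝ)..t, ⟪F s, z s⟫_ℝ := by
      refine intervalIntegral.integral_congr fun s hs => ?_
      rw [uIcc_of_le ht.1] at hs
      rw [hz s ⟨hs.1, hs.2.trans ht.2⟩]
    rw [hu t ht, hu 0 h0, e1, e2, S.energy t ht]

end

theorem t_GLU : S_GLU := by
  intro H K _ _ _ _ _ _ W m C ν x0 Fr hν hex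
  choose u u1 z z1 hS h0 using fun n : ℕ => hex ((n : ℝ) + 1) (by positivity)
  -- comparison of the `k`-th and of the `n`-th solution, `k ≤ n`
  have cmp : ∀ k n : ℕ, k ≤ n → (∀ t ∈ Icc 0 ((k : ℝ) + 1), u k t = u n t) ∧
      (∀ t ∈ Icc 0 ((k : ℝ) + 1), z k t = z n t) ∧
      (∀ᵐ s ∂(volume.restrict (Ioc 0 ((k : ℝ) + 1))), u1 k s = u1 n s) ∧
      ∀ᵐ s ∂(volume.restrict (Ioc 0 ((k : ℝ) + 1))), z1 k s = z1 n s := by
    intro k n hkn
    refine str_uniq Fr hν (by positivity) (hS k) (str_mono ?_ (hS n)) ((h0 k).trans (h0 n).symm)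
    have : (k : ℝ) ≤ n := Nat.cast_le.2 hkn
    linarith
  refine ⟨fun t => u ⌊t⌋₊ t, fun t => u1 ⌊t⌋₊ t, fun t => z ⌊t⌋₊ t, fun t => z1 ⌊t⌋₊ t, ?_, ?_⟩
  · simp only [Nat.floor_zero]
    exact h0 0
  intro T hT
  set n := ⌊T⌋₊ with hn
  have hTn : T ≤ (n : ℝ) + 1 := (Nat.lt_floor_add_one T).le
  have hfl : ∀ t ∈ Icc 0 T, ⌊t⌋₊ ≤ n := fun t ht => Nat.floor_mono ht.2
  have hmem : ∀ t ∈ Icc 0 T, t ∈ Icc 0 (((⌊t⌋₊ : ℕ) : ℝ) + 1) := fun t ht =>
    ⟨ht.1, (Nat.lt_floor_add_one t).le⟩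
  have hall : ∀ᵐ s ∂(volume : Measure ℝ), ∀ k : ℕ, k ≤ n → s ∈ Ioc 0 ((k : ℝ) + 1) →
      u1 k s = u1 n s ∧ z1 k s = z1 n s := by
    rw [ae_all_iff]
    intro k
    by_cases hk : k ≤ n
    · obtain ⟨-, -, h3, h4⟩ := cmp k n hk
      rw [ae_restrict_iff' measurableSet_Ioc] at h3 h4
      filter_upwards [h3, h4] with s h5 h6 _ h7
      exact ⟨h5 h7, h6 h7⟩
    · exact Eventually.of_forall fun s h => absurd h hk
  have hall' : ∀ᵐ s ∂(volume.restrict (Ioc 0 T)), u1 ⌊s⌋₊ s = u1 n s ∧ z1 ⌊s⌋₊ s = z1 n s := by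
    filter_upwards [ae_restrict_of_ae hall, ae_restrict_mem measurableSet_Ioc] with s hs hsm
    have hsI : s ∈ Icc 0 T := Ioc_subset_Icc_self hsm
    exact hs _ (hfl s hsI) ⟨hsm.1, (hmem s hsI).2⟩
  refine str_congr (str_mono hTn (hS n)) hT.le (fun t ht => ?_) (fun t ht => ?_) ?_ ?_
  · exact (cmp _ n (hfl t ht)).1 t (hmem t ht)
  · exact (cmp _ n (hfl t ht)).2.1 t (hmem t ht)
  · filter_upwards [hall'] with s hs using hs.1
  · filter_upwards [hall'] with s hs using hs.2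

end Run7.h617.DD
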