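import Pool.Agent.Run7.h617.DD.DIF

/-! Project DD (helper744), piece REL: stability in `L²` near a strong solution. -/

set_option autoImplicit false

open MeasureTheory Set Filter Topology
open scoped InnerProductSpace ContDiff

namespace Run7.h617.DD

open H772R2.NSR (Frame prim_cont ii_of_cont)
open H772R2.NSG (mem_cont int_inner ii_of_int St)
open Pool.Agent.W795.TQ (Str Univ FH)
open Run7.h744.DD

/-- Gronwall for an integral inequality -/
theorem gron_int {s t A B : ℝ} (hst : s ≤ t) (hB : 0 ≤ B) {φ : ℝ → ℝ}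
    (hφ : ContinuousOn φ (Icc s t)) (h : ∀ r ∈ Icc s t, φ r ≤ A + B * ∫ x in s..r, φ x) :
    A + B * (∫ x in s..t, φ x) ≤ A * Real.exp (B * (t - s)) := by
  set ψ : ℝ → ℝ := IccExtend hst ((Icc s t).domRestrict φ) with hψ
  have hc : Continuous ψ := (continuousOn_iff_continuous_domRestrict.1 hφ).Icc_extend'
  have hψe : ∀ r ∈ Icc s t, ψ r = φ r := fun r hr => by
    rw [hψ, IccExtend_of_mem hst _ hr]; rfl
  have hint : ∀ r ∈ Icc s t, ∫ x in s..r, ψ x = ∫ x in s..r, φ x := by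
    intro r hr
    refine intervalIntegral.integral_congr fun x hx => hψe x ?_
    rw [uIcc_of_le hr.1] at hx
    exact ⟨hx.1, hx.2.trans hr.2⟩
  have hd : ∀ r, HasDerivAt (fun r => A + B * ∫ x in s..r, ψ x) (B * ψ r) r := fun r =>
    ((hc.integral_hasStrictDerivAt s r).hasDerivAt.const_mul B).const_add A
  have hcont : Continuous (fun r => A + B * ∫ x in s..r, ψ x) :=
    continuous_iff_continuousAt.2 fun r => (hd r).continuousAt
  have key := le_gronwallBound_of_liminf_deriv_right_le (f := fun r => A + B * ∫ x in s..r, ψ x)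
    (f' := fun r => B * ψ r) (δ := A) (K := B) (ε := 0) (a := s) (b := t) hcont.continuousOn
    (fun x _ r hr => (hd x).hasDerivWithinAt.liminf_right_slope_le hr) (by simp)
    (fun x hx => by
      have hx' : x ∈ Icc s t := Ico_subset_Icc_self hx
      have h1 := h x hx'
      rw [← hint x hx', ← hψe x hx'] at h1
      simp only [add_zero]
      exact mul_le_mul_of_nonneg_left h1 hB) t ⟨hst, le_rfl⟩
  rw [gronwallBound_ε0, hint t ⟨hst, le_rfl⟩] at key
  exact key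

theorem yng {ν c Z a b : ℝ} (hν : 0 < ν) :
    2 * (c * (a * b ^ 3) * Z) ≤ ν * b ^ 4 + 2 * (c ^ 4 * Z ^ 4 / ν ^ 3) * a ^ 4 := by
  have h : ν * b ^ 4 + 2 * (c ^ 4 * Z ^ 4 / ν ^ 3) * a ^ 4 - 2 * (c * (a * b ^ 3) * Z) =
      (((ν * b) ^ 2 - (ν * b) * (c * Z * a) - (c * Z * a) ^ 2) ^ 2
        + (c * Z * a) ^ 2 * (ν * b - c * Z * a) ^ 2) / ν ^ 3 := by
    field_simp
    ring
  have h2 : 0 ≤ (((ν * b) ^ 2 - (ν * b) * (c * Z * a) - (c * Z * a) ^ 2) ^ 2
        + (c * Z * a) ^ 2 * (ν * b - c * Z * a) ^ 2) / ν ^ 3 := by positivity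
  linarith

theorem t_REL : S_REL := by
  intro H K _ _ _ _ _ _ W m C c ν τ Z u u1 U U1 z z1 Y Y1 Fr Un hν hτ S S' hZ s t hs hst ht
  have huc : ContinuousOn u (Icc 0 τ) := prim_cont S.u1m S.pu
  have hzc : ContinuousOn z (Icc 0 τ) := prim_cont S.z1m S.pz
  have hUc : ContinuousOn U (Icc 0 τ) := prim_cont S'.u1m S'.pu
  have hYc : ContinuousOn Y (Icc 0 τ) := prim_cont S'.z1m S'.pz
  have hvc : ContinuousOn (fun t => u t - U t) (Icc 0 τ) := huc.sub hUc
  have hwc : ContinuousOn (fun t => z t - Y t) (Icc 0 τ) := hzc.sub hYc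
  obtain ⟨Z1, hSt⟩ := Pool.Agent.W503.TQ.toSt (F := fun _ => (0 : K)) continuousOn_const S
  obtain ⟨Z2, hSt'⟩ := Pool.Agent.W503.TQ.toSt (F := fun _ => (0 : K)) continuousOn_const S'
  have hdw := hSt.deriv_weak Fr hτ
  have hdw' := hSt'.deriv_weak Fr hτ
  set κ := c ^ 4 * Z ^ 4 / ν ^ 3 with hκ
  have hκ0 : 0 ≤ κ := by positivity
  have hm1 : ∀ᵐ r ∂(volume.restrict (Ioc 0 τ)), 2 * ⟪u1 r - U1 r, u r - U r⟫_ℝ ≤
      2 * κ * ‖u r - U r‖ ^ 2 - ν * ‖z r - Y r‖ ^ 2 := by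
    filter_upwards [hdw, hdw', ae_restrict_mem measurableSet_Ioc] with r hr hr' hrm
    have hrI : r ∈ Icc 0 τ := Ioc_subset_Icc_self hrm
    have hp : (u r - U r, z r - Y r) ∈ W := W.sub_mem (S.mem r hrI) (S'.mem r hrI)
    have e1 := hr _ hp
    have e2 := hr' _ hp
    have e3 := Fr.anti _ (S.mem r hrI) _ (S'.mem r hrI)
    have e4 := Un.quart _ hp
    simp only at e1 e2 e3 e4
    have e5 : ⟪u1 r - U1 r, u r - U r⟫_ℝ = -ν * ‖z r - Y r‖ ^ 2 - ⟪m (u r - U r), Y r⟫_ℝ := by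
      rw [inner_sub_left, e1, e2, ← inner_sub_left]
      have : (0 - ν • z r + m (u r)) - (0 - ν • Y r + m (U r)) =
          (m (u r) - m (U r)) - ν • (z r - Y r) := by module
      rw [this, inner_sub_left, e3, real_inner_smul_left, real_inner_self_eq_norm_sq]
      ring
    have e6 : -⟪m (u r - U r), Y r⟫_ℝ ≤
        c * (Real.sqrt ‖u r - U r‖ * Real.sqrt ‖z r - Y r‖ ^ 3) * Z := by
      calc -⟪m (u r - U r), Y r⟫_ℝ ≤ |⟪m (u r - U r), Y r⟫_ℝ| := neg_le_abs _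
        _ ≤ ‖m (u r - U r)‖ * ‖Y r‖ := abs_real_inner_le_norm _ _
        _ ≤ _ := mul_le_mul e4 (hZ r hrI) (norm_nonneg _)
          (mul_nonneg Un.c0.le (by positivity))
    have e7 := yng (ν := ν) (c := c) (Z := Z) (a := Real.sqrt ‖u r - U r‖)
      (b := Real.sqrt ‖z r - Y r‖) hν
    have e8 : Real.sqrt ‖u r - U r‖ ^ 4 = ‖u r - U r‖ ^ 2 := by
      rw [show (4 : ℕ) = 2 * 2 from rfl, pow_mul, Real.sq_sqrt (norm_nonneg _)]
    have e9 : Real.sqrt ‖z r - Y r‖ ^ 4 = ‖z r - Y r‖ ^ 2 := by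
      rw [show (4 : ℕ) = 2 * 2 from rfl, pow_mul, Real.sq_sqrt (norm_nonneg _)]
    rw [e8, e9, ← hκ] at e7
    rw [e5]
    linarith
  have hu1 : MemLp (fun t => u1 t - U1 t) 2 (volume.restrict (Ioc 0 τ)) := S.u1m.sub S'.u1m
  have hpu : ∀ a b, 0 ≤ a → a ≤ b → b ≤ τ →
      (u b - U b) - (u a - U a) = ∫ s in a..b, (u1 s - U1 s) := by
    intro a b ha hab hb
    rw [intervalIntegral.integral_sub (ii_of_int (S.u1m.integrable (by norm_num)) ha hab hb)
      (ii_of_int (S'.u1m.integrable (by norm_num)) ha hab hb), ← S.pu a b ha hab hb,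
      ← S'.pu a b ha hab hb]
    abel
  have main : ∀ r ∈ Icc s t, ‖u r - U r‖ ^ 2 + ν * (∫ x in s..r, ‖z x - Y x‖ ^ 2) ≤
      ‖u s - U s‖ ^ 2 + 2 * κ * ∫ x in s..r, ‖u x - U x‖ ^ 2 := by
    intro r hr
    have hrτ : r ≤ τ := hr.2.trans ht
    have e1 := Pool.Agent.W790.TQ.sq_prim hu1 hpu hs hr.1 hrτ
    have i1 : IntervalIntegrable (fun r => 2 * ⟪u1 r - U1 r, u r - U r⟫_ℝ) volume s r :=
      ii_of_int (T := τ) ((int_inner hu1 (mem_cont hvc)).const_mul 2) hs hr.1 hrτ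
    have i2 : IntervalIntegrable (fun r => 2 * κ * ‖u r - U r‖ ^ 2) volume s r :=
      ii_of_cont (T := τ) (continuousOn_const.mul (hvc.norm.pow 2)) hs hr.1 hrτ
    have i3 : IntervalIntegrable (fun r => ν * ‖z r - Y r‖ ^ 2) volume s r :=
      ii_of_cont (T := τ) (continuousOn_const.mul (hwc.norm.pow 2)) hs hr.1 hrτ
    have e2 : ∫ x in s..r, 2 * ⟪u1 x - U1 x, u x - U x⟫_ℝ ≤
        ∫ x in s..r, (2 * κ * ‖u x - U x‖ ^ 2 - ν * ‖z x - Y x‖ ^ 2) := by
      rw [intervalIntegral.integral_of_le hr.1, intervalIntegral.integral_of_le hr.1]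
      refine integral_mono_ae ((intervalIntegrable_iff_integrableOn_Ioc_of_le hr.1).1 i1)
        ((intervalIntegrable_iff_integrableOn_Ioc_of_le hr.1).1 (i2.sub i3)) ?_
      exact ae_mono (Measure.restrict_mono (Ioc_subset_Ioc hs hrτ) le_rfl) hm1
    rw [← e1, intervalIntegral.integral_sub i2 i3, intervalIntegral.integral_const_mul,
      intervalIntegral.integral_const_mul] at e2
    linarith
  have hφc : ContinuousOn (fun r => ‖u r - U r‖ ^ 2) (Icc s t) :=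
    (hvc.norm.pow 2).mono (Icc_subset_Icc hs ht)
  have key := gron_int (A := ‖u s - U s‖ ^ 2) (B := 2 * κ) hst (by positivity) hφc fun r hr => by
    have h1 := main r hr
    have h2 : 0 ≤ ∫ x in s..r, ‖z x - Y x‖ ^ 2 :=
      intervalIntegral.integral_nonneg hr.1 fun x _ => by positivity
    have h3 := mul_nonneg hν.le h2
    linarith
  refine (main t ⟨hst, le_rfl⟩).trans (key.trans ?_)
  have h4 : 0 ≤ 2 * κ * (t - s) := mul_nonneg (by positivity) (by linarith)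
  nlinarith [mul_nonneg (sq_nonneg ‖u s - U s‖) (Real.exp_pos (2 * κ * (t - s))).le]

end Run7.h617.DD
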